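import Pool.Agent.H15.OB.Defs

set_option autoImplicit false

open MeasureTheory Set Filter Topology Pool.Agent.H25.Kin Pool.Agent.H37.LT

namespace Pool.Agent.H48.FH

open Pool.Agent.H15.OB

variable {d : ℕ}

theorem l1_md (Cl : ℕ → ℝ) (r : ℝ → ℝ) {ε : ℝ} (hε : 0 < ε) : ∃ ρ > 0, ∀ (m : ℝ)
    (F : Vec d → Vec d → ℝ), SB Cl m r F → ∀ x y z : Vec d, ‖x - y‖ ≤ ρ → ‖z‖ ≤ ρ →
    ∫ v, |F x (v + z) - F y v| ≤ ε := by
  obtain ⟨I, hI⟩ : ∃ I : ℝ, I = ∫ v : Vec d, wt d v := ⟨_, rfl⟩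
  have hwi : Integrable (fun v : Vec d => wt d v) := integrable_wt
  have hw0 : ∀ v : Vec d, 0 ≤ wt d v := fun v => by
    unfold wt
    exact inv_nonneg.2 (pow_nonneg (w_pos v).le _)
  have hI0 : 0 ≤ I := by rw [hI]; exact integral_nonneg hw0
  obtain ⟨C₂, hC₂⟩ : ∃ C₂ : ℝ, C₂ = 2 * (2 ^ (2 * (d + 1)) * |Cl (2 * (d + 1))|) + 1 := ⟨_, rfl⟩
  have hC0 : 0 < C₂ := by rw [hC₂]; positivity
  obtain ⟨κ, hκ, hκI⟩ : ∃ κ : ℝ, 0 < κ ∧ κ * I ≤ ε := by
    refine ⟨ε / (I + 1), by positivity, ?_⟩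
    rw [div_mul_eq_mul_div, div_le_iff₀ (by positivity)]
    nlinarith
  obtain ⟨ε₁, hε₁, hε₁C⟩ : ∃ ε₁ : ℝ, 0 < ε₁ ∧ ε₁ * C₂ ≤ κ ^ 2 := by
    refine ⟨κ ^ 2 / C₂, by positivity, ?_⟩
    rw [div_mul_cancel₀ _ hC0.ne']
  refine ⟨if 0 < r ε₁ then min (r ε₁) 1 else 1, ?_, fun m F hF x y z hx hz => ?_⟩
  · split_ifs with h
    · exact lt_min h one_pos
    · exact one_pos
  have hr := hF.md ε₁ hε₁
  rw [if_pos hr.1] at hx hz
  have hz1 : ‖z‖ ≤ 1 := hz.trans (min_le_right _ _)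
  have key : ∀ v : Vec d, |F x (v + z) - F y v| ≤ κ * wt d v := by
    intro v
    have hn := norm_nonneg v
    have e1 : |F x (v + z) - F y v| ≤ ε₁ := by
      refine hr.2 x y (v + z) v (hx.trans (min_le_left _ _)) ?_
      rw [add_sub_cancel_left]
      exact hz.trans (min_le_left _ _)
    have hp : 0 < (1 + ‖v‖) ^ (2 * (d + 1)) := by positivity
    have w1 : 1 + ‖v‖ ≤ 2 * (1 + ‖v + z‖) := by
      have h1 : ‖v‖ ≤ ‖v + z‖ + ‖z‖ := by
        have h2 := norm_sub_le (v + z) z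
        rwa [add_sub_cancel_right] at h2
      have h3 := norm_nonneg (v + z)
      linarith
    have f1 : (1 + ‖v‖) ^ (2 * (d + 1)) * F x (v + z) ≤ 2 ^ (2 * (d + 1)) * |Cl (2 * (d + 1))| := by
      calc (1 + ‖v‖) ^ (2 * (d + 1)) * F x (v + z)
          ≤ (2 * (1 + ‖v + z‖)) ^ (2 * (d + 1)) * F x (v + z) :=
            mul_le_mul_of_nonneg_right (pow_le_pow_left₀ (by positivity) w1 _) (hF.nn _ _)
        _ = 2 ^ (2 * (d + 1)) * ((1 + ‖v + z‖) ^ (2 * (d + 1)) * F x (v + z)) := by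
            rw [mul_pow]; ring
        _ ≤ 2 ^ (2 * (d + 1)) * |Cl (2 * (d + 1))| :=
            mul_le_mul_of_nonneg_left ((hF.dec _ _ _).trans (le_abs_self _)) (by positivity)
    have f2 : (1 + ‖v‖) ^ (2 * (d + 1)) * F y v ≤ 2 ^ (2 * (d + 1)) * |Cl (2 * (d + 1))| := by
      have h2 := (hF.dec (2 * (d + 1)) y v).trans (le_abs_self _)
      have h3 : (1 : ℝ) ≤ 2 ^ (2 * (d + 1)) := one_le_pow₀ (by norm_num)
      nlinarith [abs_nonneg (Cl (2 * (d + 1)))]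
    have e2 : (1 + ‖v‖) ^ (2 * (d + 1)) * |F x (v + z) - F y v| ≤ C₂ := by
      have h4 : |F x (v + z) - F y v| ≤ F x (v + z) + F y v := by
        rw [abs_le]
        constructor
        · linarith [hF.nn x (v + z), hF.nn y v]
        · linarith [hF.nn x (v + z), hF.nn y v]
      calc (1 + ‖v‖) ^ (2 * (d + 1)) * |F x (v + z) - F y v|
          ≤ (1 + ‖v‖) ^ (2 * (d + 1)) * (F x (v + z) + F y v) := mul_le_mul_of_nonneg_left h4 hp.le
        _ ≤ C₂ := by rw [hC₂, mul_add]; linarith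
    have hq : 0 < (1 + ‖v‖) ^ (d + 1) := by positivity
    have e3 : ((1 + ‖v‖) ^ (d + 1) * |F x (v + z) - F y v|) ^ 2 ≤ κ ^ 2 := by
      calc ((1 + ‖v‖) ^ (d + 1) * |F x (v + z) - F y v|) ^ 2
          = |F x (v + z) - F y v| * ((1 + ‖v‖) ^ (2 * (d + 1)) * |F x (v + z) - F y v|) := by
            ring
        _ ≤ ε₁ * C₂ := mul_le_mul e1 e2 (by positivity) hε₁.le
        _ ≤ κ ^ 2 := hε₁C
    have e4 := (sq_le_sq₀ (by positivity) hκ.le).1 e3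
    unfold wt
    rw [← div_eq_mul_inv, le_div_iff₀ hq, mul_comm]
    exact e4
  calc ∫ v, |F x (v + z) - F y v| ≤ ∫ v, κ * wt d v := by
        refine integral_mono_of_nonneg (Eventually.of_forall fun v => abs_nonneg _)
          (hwi.const_mul κ) (Eventually.of_forall key)
    _ = κ * I := by rw [integral_const_mul, hI]
    _ ≤ ε := hκI

end Pool.Agent.H48.FH
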