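import Pool.Agent.H15.OB.Fin
import Pool.Agent.H48.PI.HydU
import Pool.Agent.H48.PR.HolD
import Pool.Agent.H85.HW.CoX

/-!
# Finite horizon and openness (MP_c15324_an)

Bounds on a finite time interval `[0, L]` imply the bounds for the whole life time, where `L` depends only on the constants; and every
classical solution with an initial value near that of such a solution obeys the bounds.

`Near`: stability of the Maxwellian; `Opn`, `OpnW`: openness around a solution which comes close to the Maxwellian (H85/OP).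
-/

set_option autoImplicit false

open MeasureTheory Set Filter Topology Pool.Agent.H25.Kin Pool.Agent.H48.PL
open Pool.Agent.H48.NE (mx)
open Pool.Agent.H48.CV (EqM)
open Pool.Agent.H48.PR (HolData Wp)
open Pool.Agent.H85.HW (Sch2 avX)

namespace Pool.Agent.H48.FH

variable {d : ℕ} {γ s : ℝ} {b : ℝ → ℝ}

/-- decay constants `C` and mass density at least `m` on `[0,L]`, modulus of continuity `r` in `(x,v)` on `[1,L]` -/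
def Reg {d : ℕ} (C : ℕ → ℝ) (m : ℝ) (r : ℝ → ℝ) (L : ℝ) (g : ℝ → Vec d → Vec d → ℝ) : Prop :=
  (∀ t ∈ Icc 0 L, ∀ x, (∀ (N : ℕ) (v : Vec d), (1 + ‖v‖) ^ N * g t x v ≤ C N) ∧ m ≤ ∫ v, g t x v) ∧
  ∀ t ∈ Icc 1 L, ∀ ε > 0, 0 < r ε ∧ ∀ x y v w : Vec d, ‖x - y‖ ≤ r ε → ‖v - w‖ ≤ r ε →
    |g t x v - g t y w| ≤ ε

/-- the solution `g` obeys the bounds `C`, `m` on `[0,T₀]` and is at the time `T₀` uniformly close to `W` -/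
def Cl {d : ℕ} (W : Vec d → ℝ) (C : ℕ → ℝ) (m δ T₀ : ℝ) (g : ℝ → Vec d → Vec d → ℝ) : Prop :=
  1 ≤ T₀ ∧
  (∀ t ∈ Icc 0 T₀, ∀ x, (∀ (N : ℕ) (v : Vec d), (1 + ‖v‖) ^ N * g t x v ≤ C N) ∧
    m ≤ ∫ v, g t x v) ∧
  ∀ x v, |g T₀ x v - W v| ≤ δ

/-- stability of the Maxwellian `W` -/
def Near (d : ℕ) (γ : ℝ) (b : ℝ → ℝ) (W : Vec d → ℝ) : Prop :=
  ∀ (B : ℕ → ℝ) (η : ℝ), 0 < η →
    ∃ ε > 0, ∃ U : ℕ → ℝ, ∃ m₀ > 0, ∀ (T : ℝ) (f : ℝ → Vec d → Vec d → ℝ), IsBoltzmannSol γ b T f →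
      (∀ (N : ℕ) (x v : Vec d), (1 + ‖v‖) ^ N * f 0 x v ≤ B N) → (∀ x v, |f 0 x v - W v| ≤ ε) →
      ∀ t ∈ Ico 0 T, ∀ x, (∀ (N : ℕ) (v : Vec d), (1 + ‖v‖) ^ N * f t x v ≤ U N) ∧
        m₀ ≤ ∫ v, f t x v ∧ ∀ v, |f t x v - W v| ≤ η

/-- openness around a solution `g` which comes close to `W` -/
def Opn (d : ℕ) (s γ : ℝ) (b : ℝ → ℝ) (W : Vec d → ℝ) : Prop :=
  ∀ (C : ℕ → ℝ) (m : ℝ), 0 < m → ∀ η > 0, ∃ δ : (ℕ → ℝ) → ℝ, (∀ B, 0 < δ B) ∧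
    ∀ (B : ℕ → ℝ) (T₁ : ℝ) (g : ℝ → Vec d → Vec d → ℝ), IsBoltzmannSol γ b T₁ g →
      (∀ x, 0 < ∫ v, g 0 x v) → (∃ α : ℝ, 2 * s < α ∧ α ≤ 1 ∧ HolData α (g 0)) →
      ∀ T₀ < T₁, Cl W C m (δ B) T₀ g →
      ∃ ε > 0, ∃ m₀ > 0, ∃ (M₀ : ℝ) (U : ℕ → ℝ),
      ∀ (T : ℝ) (f : ℝ → Vec d → Vec d → ℝ), IsBoltzmannSol γ b T f →
        (∀ (N : ℕ) (x v : Vec d), (1 + ‖v‖) ^ N * f 0 x v ≤ B N) → (∀ x v, |f 0 x v - g 0 x v| ≤ ε) →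
        ∀ t ∈ Ico 0 T, ∀ x, HydroBounds m₀ M₀ M₀ M₀ (f t x) ∧
          (∀ (N : ℕ) (v : Vec d), (1 + ‖v‖) ^ N * f t x v ≤ U N) ∧
          (t < T₁ → ∀ v, |f t x v - g t x v| ≤ η) ∧ (T₀ ≤ t → ∀ v, |f t x v - W v| ≤ η)

/-- the same for oscillating initial values -/
def OpnW (d : ℕ) (γ : ℝ) (b : ℝ → ℝ) (W : Vec d → ℝ) : Prop :=
  ∀ h : Vec d → Vec d → Vec d → ℝ, Sch2 h → (∀ x y v, 0 ≤ h x y v) → (∀ x y, 0 < ∫ v, h x y v) →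
  ∀ (C : ℕ → ℝ) (m : ℝ), 0 < m → ∀ η > 0, ∃ δ : (ℕ → ℝ) → ℝ, (∀ B, 0 < δ B) ∧
    ∀ (B : ℕ → ℝ) (T₁ : ℝ) (g : ℝ → Vec d → Vec d → ℝ), IsBoltzmannSol γ b T₁ g → g 0 = avX h →
      ∀ T₀ < T₁, ∀ τ > 0, Cl W C m (δ B) T₀ g → ∃ ε > 0, ∃ n₀ : ℕ, ∃ m₁ > 0,
      ∃ (M₀ : ℝ) (U : ℕ → ℝ), ∀ n ≥ n₀, ∃ m₀ > 0,
      ∀ (T : ℝ) (f : ℝ → Vec d → Vec d → ℝ), IsBoltzmannSol γ b T f →
        (∀ (M : ℕ) (x v : Vec d), (1 + ‖v‖) ^ M * f 0 x v ≤ B M) →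
        (∀ x v, |f 0 x v - h x ((n : ℝ) • x) v| ≤ ε) →
        ∀ t ∈ Ico 0 T, ∀ x, HydroBounds m₀ M₀ M₀ M₀ (f t x) ∧
          (∀ (M : ℕ) (v : Vec d), (1 + ‖v‖) ^ M * f t x v ≤ U M) ∧
          (τ ≤ t → m₁ ≤ ∫ v, f t x v) ∧
          (τ ≤ t → t < T₁ → ∀ v, |f t x v - g t x v| ≤ η) ∧
          (T₀ ≤ t → ∀ v, |f t x v - W v| ≤ η)

/-- the solution comes close to the Maxwellian before the time `L` -/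
theorem come {D : ℝ → (Vec d → ℝ) → ℝ} (HD : Pool.Agent.H15.OB.DisTh d (boltzQ γ b) D)
    (C : ℕ → ℝ) {m : ℝ} (hm : 0 < m) (r : ℝ → ℝ) {a k : ℝ} (ha : 0 < a) (hk : 0 < k) (u : Vec d)
    {δ : ℝ} (hδ : 0 < δ) : ∃ L : ℝ, 1 ≤ L ∧ ∀ (T₁ : ℝ) (g : ℝ → Vec d → Vec d → ℝ),
      IsBoltzmannSol γ b T₁ g → EqM a k u (g 0) → L < T₁ → Reg C m r L g →
      ∃ t ∈ Icc 1 L, ∀ x v, |g t x v - mx a k u v| ≤ δ := by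
  obtain ⟨n, hn, h⟩ := Pool.Agent.H15.OB.orbit_unif HD C hm r ha hk u hδ
  refine ⟨n + 1, by linarith, fun T₁ g hg hE hL hR => ?_⟩
  have hg' : IsClassicalSol T₁ (fun t x => boltzQ γ b (g t x)) g := hg
  have hr : IsClassicalSol (n + 1) (fun t x => boltzQ γ b (g t x)) g :=
    Pool.Agent.H48.PI.sol_restrict hg' hL.le
  have hSB : ∀ t ∈ Ico 1 (n + 1), Pool.Agent.H15.OB.SB C m r (g t) := by
    intro t ht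
    have h4 : Pool.Agent.H15.AV.Slice (g t) :=
      Pool.Agent.H15.AV.sol_slice hr ⟨by linarith [ht.1], ht.2⟩
    have ht0 : t ∈ Icc 0 (n + 1) := ⟨by linarith [ht.1], ht.2.le⟩
    exact ⟨h4.cont, h4.nonneg, h4.per, fun N x v => (hR.1 t ht0 x).1 N v, fun x => (hR.1 t ht0 x).2,
      hR.2 t ⟨ht.1, ht.2.le⟩⟩
  obtain ⟨t, ht, h3⟩ := h (n + 1) g hr (fun t ht N x v => (hR.1 t ⟨ht.1, ht.2.le⟩ x).1 N v)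
    hSB hE (by linarith)
  exact ⟨t, ⟨ht.1, ht.2.trans (by linarith)⟩, h3⟩

/-- **finite horizon** -/
theorem hor {D : ℝ → (Vec d → ℝ) → ℝ} (HD : Pool.Agent.H15.OB.DisTh d (boltzQ γ b) D)
    {a k : ℝ} (ha : 0 < a) (hk : 0 < k) (u : Vec d) (hN : Near d γ b (mx a k u))
    (hO : Opn d s γ b (mx a k u)) (C : ℕ → ℝ) {m : ℝ} (hm : 0 < m) (r : ℝ → ℝ) {η : ℝ} (hη : 0 < η)
    (B : ℕ → ℝ) : ∃ L : ℝ, 1 ≤ L ∧ ∃ m₀ > 0, ∃ (M₀ : ℝ) (U : ℕ → ℝ),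
      ∀ (T₁ : ℝ) (g : ℝ → Vec d → Vec d → ℝ), L < T₁ → IsBoltzmannSol γ b T₁ g → EqM a k u (g 0) →
      Reg C m r L g →
      (∀ t ∈ Ico 0 T₁, ∀ x, HydroBounds m₀ M₀ M₀ M₀ (g t x) ∧
        (∀ (N : ℕ) (v : Vec d), (1 + ‖v‖) ^ N * g t x v ≤ U N) ∧
        (L ≤ t → ∀ v, |g t x v - mx a k u v| ≤ η)) ∧
      ((∃ α : ℝ, 2 * s < α ∧ α ≤ 1 ∧ HolData α (g 0)) →
        ∃ ε > 0, ∃ m₁ > 0, ∃ (M₁ : ℝ) (V : ℕ → ℝ),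
        ∀ (T : ℝ) (f : ℝ → Vec d → Vec d → ℝ), IsBoltzmannSol γ b T f →
          (∀ (N : ℕ) (x v : Vec d), (1 + ‖v‖) ^ N * f 0 x v ≤ B N) →
          (∀ x v, |f 0 x v - g 0 x v| ≤ ε) →
          ∀ t ∈ Ico 0 T, ∀ x, HydroBounds m₁ M₁ M₁ M₁ (f t x) ∧
            (∀ (N : ℕ) (v : Vec d), (1 + ‖v‖) ^ N * f t x v ≤ V N) ∧
            (t < T₁ → ∀ v, |f t x v - g t x v| ≤ η) ∧ (L ≤ t → ∀ v, |f t x v - mx a k u v| ≤ η)) := by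
  obtain ⟨εn, hεn, Un, mn, hmn, hnear⟩ := hN C η hη
  obtain ⟨δ, hδ, hopn⟩ := hO C m hm η hη
  obtain ⟨L, hL, hcome⟩ := come HD C hm r ha hk u (lt_min hεn (hδ B))
  obtain ⟨M₀, hM₀⟩ := Pool.Agent.H48.PI.hydro_of_U d (fun N => max (C N) (Un N))
  refine ⟨L, hL, min m mn, lt_min hm hmn, M₀, fun N => max (C N) (Un N),
    fun T₁ g hLT hg hE hR => ?_⟩
  have hg' : IsClassicalSol T₁ (fun t x => boltzQ γ b (g t x)) g := hg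
  obtain ⟨t₀, ht₀, hcl⟩ := hcome T₁ g hg hE hLT hR
  have ht00 : 0 ≤ t₀ := by linarith [ht₀.1]
  have hlate : ∀ t ∈ Ico t₀ T₁, ∀ x, (∀ (N : ℕ) (v : Vec d), (1 + ‖v‖) ^ N * g t x v ≤ Un N) ∧
      mn ≤ ∫ v, g t x v ∧ ∀ v, |g t x v - mx a k u v| ≤ η := by
    intro t ht x
    have hn := hnear (T₁ - t₀) (fun τ => g (t₀ + τ)) (Pool.Agent.H48.PI.boltz_shift hg ht00)
      (fun N y w => by simpa using (hR.1 t₀ ⟨ht00, ht₀.2⟩ y).1 N w)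
      (fun y w => by simpa using (hcl y w).trans (min_le_left _ _))
      (t - t₀) ⟨by linarith [ht.1], by linarith [ht.2]⟩ x
    have e1 : t₀ + (t - t₀) = t := by ring
    simp only [e1] at hn
    exact hn
  have hall : ∀ t ∈ Ico 0 T₁, ∀ x, (∀ (N : ℕ) (v : Vec d),
      (1 + ‖v‖) ^ N * g t x v ≤ max (C N) (Un N)) ∧ min m mn ≤ ∫ v, g t x v := by
    intro t ht x
    rcases le_or_gt t t₀ with h | h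
    · have h3 := hR.1 t ⟨ht.1, h.trans ht₀.2⟩ x
      exact ⟨fun N v => (h3.1 N v).trans (le_max_left _ _), (min_le_left _ _).trans h3.2⟩
    · have h3 := hlate t ⟨h.le, ht.2⟩ x
      exact ⟨fun N v => (h3.1 N v).trans (le_max_right _ _), (min_le_right _ _).trans h3.2.1⟩
  refine ⟨fun t ht x => ?_, fun hol => ?_⟩
  · obtain ⟨g1, g2, g3⟩ := hM₀ T₁ _ g hg' (fun N t ht x v => (hall t ht x).1 N v) t ht x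
    exact ⟨⟨(hall t ht x).2, g1, g2, g3⟩, (hall t ht x).1,
      fun h v => (hlate t ⟨ht₀.2.trans h, ht.2⟩ x).2.2 v⟩
  · have hpos : ∀ x, 0 < ∫ v, g 0 x v := fun x =>
      hm.trans_le (hR.1 0 ⟨le_rfl, by linarith⟩ x).2
    obtain ⟨ε, hε, m₁, hm₁, M₁, V, h3⟩ := hopn B T₁ g hg hpos hol t₀ (ht₀.2.trans_lt hLT)
      ⟨ht₀.1, fun t ht x => hR.1 t ⟨ht.1, ht.2.trans ht₀.2⟩ x,
        fun x v => (hcl x v).trans (min_le_right _ _)⟩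
    refine ⟨ε, hε, m₁, hm₁, M₁, V, fun T f hf hfB hfε t ht x => ?_⟩
    obtain ⟨j1, j2, j3, j4⟩ := h3 T f hf hfB hfε t ht x
    exact ⟨j1, j2, j3, fun h => j4 (ht₀.2.trans h)⟩

/-- openness, oscillating initial values -/
theorem horW {D : ℝ → (Vec d → ℝ) → ℝ} (HD : Pool.Agent.H15.OB.DisTh d (boltzQ γ b) D)
    {a k : ℝ} (ha : 0 < a) (hk : 0 < k) (u : Vec d) (hO : OpnW d γ b (mx a k u))
    {h : Vec d → Vec d → Vec d → ℝ} (hh : Sch2 h) (hn : ∀ x y v, 0 ≤ h x y v)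
    (hv : ∀ x y, 0 < ∫ v, h x y v) (C : ℕ → ℝ) {m : ℝ} (hm : 0 < m) (r : ℝ → ℝ) {η : ℝ} (hη : 0 < η)
    (B : ℕ → ℝ) : ∃ L : ℝ, 1 ≤ L ∧
      ∀ (T₁ : ℝ) (g : ℝ → Vec d → Vec d → ℝ), L < T₁ → IsBoltzmannSol γ b T₁ g → EqM a k u (g 0) →
      Reg C m r L g → g 0 = avX h → ∀ τ > 0, ∃ ε > 0, ∃ n₀ : ℕ, ∃ m₁ > 0,
      ∃ (M₁ : ℝ) (V : ℕ → ℝ), ∀ n ≥ n₀, ∃ m₂ > 0,
      ∀ (T : ℝ) (f : ℝ → Vec d → Vec d → ℝ), IsBoltzmannSol γ b T f →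
        (∀ (N : ℕ) (x v : Vec d), (1 + ‖v‖) ^ N * f 0 x v ≤ B N) →
        (∀ x v, |f 0 x v - h x ((n : ℝ) • x) v| ≤ ε) →
        ∀ t ∈ Ico 0 T, ∀ x, HydroBounds m₂ M₁ M₁ M₁ (f t x) ∧
          (∀ (N : ℕ) (v : Vec d), (1 + ‖v‖) ^ N * f t x v ≤ V N) ∧
          (τ ≤ t → m₁ ≤ ∫ v, f t x v) ∧
          (τ ≤ t → t < T₁ → ∀ v, |f t x v - g t x v| ≤ η) ∧
          (L ≤ t → ∀ v, |f t x v - mx a k u v| ≤ η) := by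
  obtain ⟨δ, hδ, hopn⟩ := hO h hh hn hv C m hm η hη
  obtain ⟨L, hL, hcome⟩ := come HD C hm r ha hk u (hδ B)
  refine ⟨L, hL, fun T₁ g hLT hg hE hR hg0 τ hτ => ?_⟩
  obtain ⟨t₀, ht₀, hcl⟩ := hcome T₁ g hg hE hLT hR
  obtain ⟨ε, hε, n₀, m₁, hm₁, M₁, V, h3⟩ := hopn B T₁ g hg hg0 t₀ (ht₀.2.trans_lt hLT) τ hτ
    ⟨ht₀.1, fun t ht x => hR.1 t ⟨ht.1, ht.2.trans ht₀.2⟩ x, hcl⟩
  refine ⟨ε, hε, n₀, m₁, hm₁, M₁, V, fun n hn => ?_⟩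
  obtain ⟨m₂, hm₂, h4⟩ := h3 n hn
  refine ⟨m₂, hm₂, fun T f hf hfB hfε t ht x => ?_⟩
  obtain ⟨j1, j2, j3, j4, j5⟩ := h4 T f hf hfB hfε t ht x
  exact ⟨j1, j2, j3, j4, fun h => j5 (ht₀.2.trans h)⟩

end Pool.Agent.H48.FH
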