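import Pool.Agent.H15.OB.Var
import Pool.Agent.H37.LT.Main

/-!
# A time with small distance in `L¹`

By contradiction: in each of the `N` windows `[1 + i(L+1), 1 + (i+1)(L+1)]` the entropy production would be at least a fixed constant.
-/

set_option autoImplicit false

open MeasureTheory Set Filter Topology Pool.Agent.H25.Kin Pool.Agent.H37.LT Pool.Agent.H48.PL
open Pool.Agent.H15.AV (UNice sol_unice nu_integral)
open Pool.Agent.H48.CV (EqM)
open Pool.Agent.H48.NE (mx)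
open Pool.Agent.H48.PI (Hs)
open Pool.Agent.H15.OB

namespace Pool.Agent.H48.FH

variable {d : ℕ} {Q : (Vec d → ℝ) → Vec d → ℝ} {D : ℝ → (Vec d → ℝ) → ℝ}

/-- the distance at a fixed time -/
private lemma tim_slice (HD : DisTh d Q D) {Cl : ℕ → ℝ} {a k : ℝ} (ha : 0 < a)
    (hk : 0 < k) {u : Vec d} {T : ℝ} {f : ℝ → Vec d → Vec d → ℝ}
    (hfc : IsClassicalSol T (fun t x => Q (f t x)) f)
    (hdec : ∀ t ∈ Ico 0 T, ∀ (N : ℕ) (x v : Vec d), (1 + ‖v‖) ^ N * f t x v ≤ Cl N)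
    {τ : ℝ} (hτ : τ ∈ Ioo 0 T) {ε₁ K₁ η δ Y : ℝ} (hK : 0 ≤ K₁)
    (hδ : δ ∈ Ioc (0 : ℝ) 1)
    (h : ∀ x, ∫ v, |f τ x v - mx a k u v| ≤ ε₁ + K₁ * (D δ (f τ x) + η + md (f τ x) (mx a k u)))
    (hmd : ∫ x, md (f τ x) (mx a k u) ∂(muD d) ≤ Y) :
    ∫ q, |f τ q.2 q.1 - mx a k u q.1| ∂(nu d) ≤
      ε₁ + K₁ * ((∫ x, D δ (f τ x) ∂(muD d)) + η + Y) := by
  have hτ' : τ ∈ Ico 0 T := ⟨hτ.1.le, hτ.2⟩
  have hcf : Continuous fun q : Vec d × Vec d => f τ q.1 q.2 := hfc.cont_slice hτ'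
  have hn : Nice (mx a k u) := Pool.Agent.H48.NE.mx_nice ha hk u
  obtain ⟨C₂, hC₂⟩ := hn.rd (d + 1)
  have hwt : ∀ v : Vec d, |mx a k u v| ≤ C₂ * wt d v := by
    intro v
    have h2 : 0 < (1 + ‖v‖) ^ (d + 1) := pow_pos (w_pos v) _
    have h1 := hC₂ v
    unfold wt
    rw [← div_eq_mul_inv, le_div_iff₀ h2, mul_comm]
    exact h1
  have hwf : ∀ x v : Vec d, |f τ x v| ≤ Cl (d + 1) * wt d v := by
    intro x v
    have h2 : 0 < (1 + ‖v‖) ^ (d + 1) := pow_pos (w_pos v) _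
    have h1 := hdec τ hτ' (d + 1) x v
    rw [abs_of_nonneg (hfc.nonneg τ hτ' x v)]
    unfold wt
    rw [← div_eq_mul_inv, le_div_iff₀ h2, mul_comm]
    exact h1
  have hcont : Continuous fun q : Vec d × Vec d => |f τ q.2 q.1 - mx a k u q.1| :=
    ((hcf.comp (by fun_prop : Continuous fun q : Vec d × Vec d => (q.2, q.1))).sub
      (hn.cont.comp continuous_fst)).abs
  have hint : Integrable (fun q : Vec d × Vec d => |f τ q.2 q.1 - mx a k u q.1|) (nu d) := by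
    refine integrable_nu (C := Cl (d + 1) + C₂) hcont.aestronglyMeasurable fun q => ?_
    rw [abs_abs]
    refine (abs_sub _ _).trans ?_
    rw [add_mul]
    exact add_le_add (hwf _ _) (hwt _)
  rw [nu_integral hint]
  have i1 : Integrable (fun x => ∫ v, |f τ x v - mx a k u v|) (muD d) := by
    have := hint
    unfold nu at this
    exact this.integral_prod_right
  have i2 := HD.int T f hfc δ hδ τ hτ
  have i3 := md_int ha hk u hcf (fun x v => hfc.nonneg τ hτ' x v)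
    (fun N x v => hdec τ hτ' N x v)
  have hm1 : (muD d).real univ = 1 := by
    unfold Measure.real
    rw [muD_univ]
    rfl
  have i5 : Integrable (fun x => D δ (f τ x) + η) (muD d) := i2.add (integrable_const _)
  have i6 : Integrable (fun x => D δ (f τ x) + η + md (f τ x) (mx a k u)) (muD d) := i5.add i3
  have i7 : Integrable (fun x => K₁ * (D δ (f τ x) + η + md (f τ x) (mx a k u))) (muD d) :=
    i6.const_mul _
  have i4 : Integrable (fun x => ε₁ + K₁ * (D δ (f τ x) + η + md (f τ x) (mx a k u))) (muD d) :=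
    (integrable_const _).add i7
  have h1 := integral_mono i1 i4 h
  refine h1.trans ?_
  have e1 : ∫ x, (ε₁ + K₁ * (D δ (f τ x) + η + md (f τ x) (mx a k u))) ∂(muD d) =
      ε₁ + K₁ * ((∫ x, D δ (f τ x) ∂(muD d)) + η + ∫ x, md (f τ x) (mx a k u) ∂(muD d)) := by
    rw [integral_add (integrable_const _) i7, integral_const_mul, integral_add i5 i3,
      integral_add i2 (integrable_const _), integral_const, integral_const, hm1, one_smul, one_smul]
  rw [e1]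
  have := mul_le_mul_of_nonneg_left hmd hK
  linarith

set_option maxHeartbeats 4000000 in
theorem l1_exists (HD : DisTh d Q D) (Cl : ℕ → ℝ) {m : ℝ} (hm : 0 < m) (r : ℝ → ℝ) {a k : ℝ}
    (ha : 0 < a) (hk : 0 < k) (u : Vec d) {ε : ℝ} (hε : 0 < ε) : ∃ n : ℝ, 1 ≤ n ∧
    ∀ (T : ℝ) (f : ℝ → Vec d → Vec d → ℝ), IsClassicalSol T (fun t x => Q (f t x)) f →
    (∀ t ∈ Ico 0 T, ∀ (N : ℕ) (x v : Vec d), (1 + ‖v‖) ^ N * f t x v ≤ Cl N) →
    (∀ t ∈ Ico 1 T, SB Cl m r (f t)) → EqM a k u (f 0) → n < T →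
    ∃ t ∈ Icc 1 n, ∫ q, |f t q.2 q.1 - mx a k u q.1| ∂(nu d) ≤ ε := by
  obtain ⟨K₁, hK₁, hsl⟩ := HD.slice Cl m hm a k ha hk u (ε / 8) (by positivity)
  obtain ⟨R, K₂, hR, hK₂, hmd⟩ := md_le Cl ha hk u (by positivity : 0 < ε / (8 * (K₁ + 1)))
  obtain ⟨L, K₃, hL, hK₃, hvar⟩ := var_le HD Cl r (2 * R ^ 2)
    (by positivity : 0 < ε / (8 * (K₁ + 1) * (K₂ + 1) * ((d : ℝ) + 2)))
  obtain ⟨CH, hCH, hHs⟩ := Hs_bd d Cl
  obtain ⟨κ, hκ⟩ : ∃ κ : ℝ, κ = K₁ * (K₂ * (((d : ℝ) + 2) * K₃)) := ⟨_, rfl⟩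
  have hκ0 : 0 ≤ κ := by rw [hκ]; positivity
  obtain ⟨N, hN⟩ := exists_nat_gt ((K₁ + κ) * (2 * CH + 2) / (ε / 2))
  have hN0 : (0 : ℝ) < N := lt_of_le_of_lt (by positivity) hN
  have hN1 : 1 ≤ N := by exact_mod_cast hN0
  rw [div_lt_iff₀ (by positivity)] at hN
  obtain ⟨n, hn⟩ : ∃ n : ℝ, n = 1 + N * (L + 1) := ⟨_, rfl⟩
  have hNL : 0 < (N : ℝ) * (L + 1) := by positivity
  have hN1' : (1 : ℝ) ≤ N := by exact_mod_cast hN1
  have hNL1 : L + 1 ≤ (N : ℝ) * (L + 1) := by nlinarith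
  have hn1 : 1 ≤ n := by rw [hn]; linarith
  refine ⟨n, hn1, fun T f hfc hdec hSB h0 hnT => ?_⟩
  obtain ⟨Cl', hCl'⟩ := sol_unice hfc one_pos hnT
  obtain ⟨η, hη⟩ : ∃ η : ℝ, η = ε / (8 * (K₁ + 1)) := ⟨_, rfl⟩
  have hη0 : 0 < η := by rw [hη]; positivity
  have hKη : K₁ * η ≤ ε / 8 := by
    have h1 : (K₁ + 1) * η = ε / 8 := by
      rw [hη]
      field_simp
    nlinarith
  obtain ⟨ζ, hζ⟩ : ∃ ζ : ℝ, ζ = 1 / (N * (L + 1)) := ⟨_, rfl⟩
  have hζ0 : 0 < ζ := by rw [hζ]; positivity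
  have hζn : ζ * (N * (L + 1)) = 1 := by
    rw [hζ]
    field_simp
  obtain ⟨δa, hδa, hsl'⟩ := hsl Cl' η hη0
  obtain ⟨δb, hδb, hlow⟩ := HD.low Cl' ζ hζ0
  obtain ⟨δc, hδc, hdr⟩ := HD.drop T f hfc 1 n one_pos (by rw [hn]; linarith) hnT 1 one_pos
  obtain ⟨δe, hδe, hva⟩ := hvar m T f hfc hdec hSB n (by rw [hn]; linarith) hnT
  obtain ⟨δ, hδ0, hδ1, hda, hdb, hdc, hde⟩ : ∃ δ : ℝ, 0 < δ ∧ δ ≤ 1 ∧ δ ≤ δa ∧ δ ≤ δb ∧ δ ≤ δc ∧
      δ ≤ δe :=
    ⟨min 1 (min (min δa δb) (min δc δe)), lt_min one_pos (lt_min (lt_min hδa hδb) (lt_min hδc hδe)),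
      min_le_left _ _, (min_le_right _ _).trans ((min_le_left _ _).trans (min_le_left _ _)),
      (min_le_right _ _).trans ((min_le_left _ _).trans (min_le_right _ _)),
      (min_le_right _ _).trans ((min_le_right _ _).trans (min_le_left _ _)),
      (min_le_right _ _).trans ((min_le_right _ _).trans (min_le_right _ _))⟩
  have hδI : δ ∈ Ioc (0 : ℝ) 1 := ⟨hδ0, hδ1⟩
  obtain ⟨DD, hDD⟩ : ∃ DD : ℝ → ℝ, DD = fun τ => ∫ x, D δ (f τ x) ∂(muD d) := ⟨_, rfl⟩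
  by_contra hcon
  push Not at hcon
  have hin : ∀ τ ∈ Icc 1 n, τ ∈ Ioo 0 T := fun τ hτ =>
    ⟨one_pos.trans_le hτ.1, hτ.2.trans_lt hnT⟩
  have hm1 : (muD d).real univ = 1 := by
    unfold Measure.real
    rw [muD_univ]
    rfl
  -- lower bound of the entropy production
  have hDlow : ∀ τ ∈ Icc 1 n, 0 ≤ DD τ + ζ := by
    intro τ hτ
    have i2 := HD.int T f hfc δ hδI τ (hin τ hτ)
    have h1 : ∫ _x : Vec d, (-ζ) ∂(muD d) ≤ ∫ x, D δ (f τ x) ∂(muD d) :=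
      integral_mono (integrable_const _) i2 fun x => hlow δ ⟨hδ0, hdb⟩ (f τ x) (hCl' τ hτ x)
    rw [integral_const, hm1, one_smul] at h1
    rw [hDD]
    show 0 ≤ (∫ x, D δ (f τ x) ∂(muD d)) + ζ
    linarith
  have hDc : ContinuousOn DD (Ioo 0 T) := by
    rw [hDD]
    exact HD.cont T f hfc δ hδI
  have hii : ∀ x ∈ Icc 1 n, ∀ y ∈ Icc 1 n, IntervalIntegrable (fun τ => DD τ + ζ) volume x y := by
    intro x hx y hy
    refine ContinuousOn.intervalIntegrable ?_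
    refine (hDc.mono fun τ hτ => hin τ ?_).add continuousOn_const
    rw [uIcc, mem_Icc] at hτ
    exact ⟨(le_min hx.1 hy.1).trans hτ.1, hτ.2.trans (max_le hx.2 hy.2)⟩
  -- the inequality at a time of the last part of a window
  have hkey : ∀ t ∈ Icc (1 + L) n, ε / 2 ≤ K₁ * (DD t + ζ) + κ * ∫ τ in (t - L)..t, (DD τ + ζ) := by
    intro t ht
    have ht1 : t ∈ Icc 1 n := ⟨by linarith [ht.1], ht.2⟩
    have ht2 := hin t ht1
    have ht3 : t ∈ Ico 0 T := ⟨ht2.1.le, ht2.2⟩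
    have hSBt := hSB t ⟨ht1.1, ht2.2⟩
    have hmdt := hmd (f t) (hfc.cont_slice ht3) (fun x v => hfc.nonneg t ht3 x v)
        (fun N x v => hdec t ht3 N x v) (HD.inv T f hfc a k u h0 t ht3)
    have h1 := tim_slice HD ha hk hfc hdec ht2 (ε₁ := ε / 8) (K₁ := K₁) (η := η) (δ := δ) hK₁ hδI
      (fun x => hsl' δ ⟨hδ0, hda⟩ (f t x) (hCl' t ht1 x) (fun N v => hdec t ht3 N x v)
        (hSBt.mass x)) hmdt
    have h2 := (hcon t ht1).le.trans h1
    obtain ⟨S, hS⟩ : ∃ S : ℝ, S = ∫ τ in (t - L)..t, (∫ x, D δ (f τ x) ∂(muD d)) := ⟨_, rfl⟩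
    obtain ⟨ε₃, hε₃⟩ : ∃ ε₃ : ℝ, ε₃ = ε / (8 * (K₁ + 1) * (K₂ + 1) * ((d : ℝ) + 2)) := ⟨_, rfl⟩
    have hε30 : 0 < ε₃ := by rw [hε₃]; positivity
    have hv : ∀ χ : Vec d → ℝ, TF (2 * R ^ 2) χ → Vr χ (f t) ≤ ε₃ + K₃ * S := by
      intro χ hχ
      rw [hε₃, hS]
      exact hva δ ⟨hδ0, hde⟩ t ht χ hχ
    have hV : Vr (fun _ => 1) (f t) + (∑ i, Vr (fc R i) (f t)) + Vr (fe R) (f t) ≤
        ((d : ℝ) + 2) * (ε₃ + K₃ * S) := by
      have a1 := hv _ (TF_one hR)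
      have a2 := hv _ (TF_fe hR)
      have a3 : ∑ i : Fin d, Vr (fc R i) (f t) ≤ ∑ _i : Fin d, (ε₃ + K₃ * S) :=
        Finset.sum_le_sum fun i _ => hv _ (TF_fc hR i)
      rw [Finset.sum_const, Finset.card_univ, Fintype.card_fin, nsmul_eq_mul] at a3
      linarith
    have hSle : S ≤ ∫ τ in (t - L)..t, (DD τ + ζ) := by
      have j1 : IntervalIntegrable DD volume (t - L) t := by
        refine ContinuousOn.intervalIntegrable (hDc.mono fun τ hτ => hin τ ?_)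
        rw [uIcc_of_le (by linarith)] at hτ
        exact ⟨by linarith [ht.1, hτ.1], hτ.2.trans ht.2⟩
      have e1 : S = ∫ τ in (t - L)..t, DD τ := by rw [hS, hDD]
      rw [e1, intervalIntegral.integral_add j1 intervalIntegrable_const,
        intervalIntegral.integral_const, smul_eq_mul]
      nlinarith
    have hKK : K₁ * (K₂ * (((d : ℝ) + 2) * ε₃)) ≤ ε / 8 := by
      have b1 : (K₁ + 1) * (K₂ + 1) * (((d : ℝ) + 2) * ε₃) = ε / 8 := by
        rw [hε₃]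
        field_simp
      have b2 : K₁ * K₂ ≤ (K₁ + 1) * (K₂ + 1) :=
        mul_le_mul (by linarith only) (by linarith only) hK₂ (add_nonneg hK₁ zero_le_one)
      have b3 : 0 ≤ ((d : ℝ) + 2) * ε₃ := by positivity
      calc K₁ * (K₂ * (((d : ℝ) + 2) * ε₃)) = K₁ * K₂ * (((d : ℝ) + 2) * ε₃) := by ring
        _ ≤ (K₁ + 1) * (K₂ + 1) * (((d : ℝ) + 2) * ε₃) := mul_le_mul_of_nonneg_right b2 b3
        _ = ε / 8 := b1
    have hVK : K₁ * (K₂ * (Vr (fun _ => 1) (f t) + (∑ i, Vr (fc R i) (f t)) + Vr (fe R) (f t))) ≤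
        K₁ * (K₂ * (((d : ℝ) + 2) * (ε₃ + K₃ * S))) :=
      mul_le_mul_of_nonneg_left (mul_le_mul_of_nonneg_left hV hK₂) hK₁
    have hDt : (∫ x, D δ (f t x) ∂(muD d)) = DD t := by rw [hDD]
    rw [hDt, ← hη] at h2
    have c1 : K₁ * (K₂ * (((d : ℝ) + 2) * (ε₃ + K₃ * S))) =
        K₁ * (K₂ * (((d : ℝ) + 2) * ε₃)) + κ * S := by rw [hκ]; ring
    have c2 : κ * S ≤ κ * ∫ τ in (t - L)..t, (DD τ + ζ) := mul_le_mul_of_nonneg_left hSle hκ0
    have c3 : K₁ * DD t ≤ K₁ * (DD t + ζ) := mul_le_mul_of_nonneg_left (by linarith) hK₁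
    have c4 : K₁ * (DD t + η + (η + K₂ * (Vr (fun _ => 1) (f t) + (∑ i, Vr (fc R i) (f t)) +
        Vr (fe R) (f t)))) = K₁ * DD t + K₁ * η + K₁ * η +
        K₁ * (K₂ * (Vr (fun _ => 1) (f t) + (∑ i, Vr (fc R i) (f t)) + Vr (fe R) (f t))) := by ring
    rw [c4] at h2
    linarith
  -- the entropy production of one window
  have hwin : ∀ i < N, ε / 2 ≤ (K₁ + κ) *
      ∫ τ in (1 + i * (L + 1))..(1 + (i + 1 : ℕ) * (L + 1)), (DD τ + ζ) := by
    intro i hi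
    have hi' : ((i : ℝ) + 1) ≤ N := by exact_mod_cast hi
    have hi0 : (0 : ℝ) ≤ i := Nat.cast_nonneg i
    obtain ⟨x, hx⟩ : ∃ x : ℝ, x = 1 + i * (L + 1) := ⟨_, rfl⟩
    have hy : 1 + ((i + 1 : ℕ) : ℝ) * (L + 1) = x + L + 1 := by
      rw [hx]
      push_cast
      ring
    rw [hy, ← hx]
    have hx1 : 1 ≤ x := by rw [hx]; nlinarith
    have hxn : x + L + 1 ≤ n := by
      have : ((i : ℝ) + 1) * (L + 1) ≤ N * (L + 1) := mul_le_mul_of_nonneg_right hi' (by linarith)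
      rw [hx, hn]
      linarith
    obtain ⟨A, hA⟩ : ∃ A : ℝ, A = ∫ τ in x..(x + L + 1), (DD τ + ζ) := ⟨_, rfl⟩
    have hsub : ∀ p q : ℝ, x ≤ p → p ≤ q → q ≤ x + L + 1 → ∫ τ in p..q, (DD τ + ζ) ≤ A := by
      intro p q h1 h2 h3
      rw [hA]
      refine intervalIntegral.integral_mono_interval h1 h2 h3 ?_
        (hii x ⟨hx1, by linarith⟩ (x + L + 1) ⟨by linarith, hxn⟩)
      refine (ae_restrict_mem measurableSet_Ioc).mono fun τ hτ => ?_
      exact hDlow τ ⟨by linarith [hτ.1], by linarith [hτ.2]⟩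
    have h1 : ∀ t ∈ Icc (x + L) (x + L + 1), ε / 2 ≤ K₁ * (DD t + ζ) + κ * A := by
      intro t ht
      have h2 := hkey t ⟨by linarith [ht.1], by linarith [ht.2]⟩
      have h3 := hsub (t - L) t (by linarith [ht.1]) (by linarith) ht.2
      have h4 := mul_le_mul_of_nonneg_left h3 hκ0
      linarith
    have hJ := hii (x + L) ⟨by linarith, by linarith⟩ (x + L + 1) ⟨by linarith, hxn⟩
    have h2 := intervalIntegral.integral_mono_on (by linarith : x + L ≤ x + L + 1)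
      (intervalIntegrable_const (c := ε / 2)) ((hJ.const_mul K₁).add intervalIntegrable_const) h1
    rw [intervalIntegral.integral_add (hJ.const_mul K₁) intervalIntegrable_const,
      intervalIntegral.integral_const_mul, intervalIntegral.integral_const,
      intervalIntegral.integral_const] at h2
    have e1 : x + L + 1 - (x + L) = 1 := by ring
    rw [e1, one_smul, one_smul] at h2
    have h3 := mul_le_mul_of_nonneg_left (hsub (x + L) (x + L + 1) (by linarith) (by linarith) le_rfl)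
      hK₁
    rw [← hA]
    linarith
  -- sum of all windows
  have hsum : ∑ i ∈ Finset.range N, ∫ τ in (1 + i * (L + 1))..(1 + (i + 1 : ℕ) * (L + 1)), (DD τ + ζ) =
      ∫ τ in (1 : ℝ)..n, (DD τ + ζ) := by
    have h1 := intervalIntegral.sum_integral_adjacent_intervals (f := fun τ => DD τ + ζ)
      (μ := volume) (a := fun i : ℕ => 1 + (i : ℝ) * (L + 1)) (n := N) (fun i hi => by
        have hi' : ((i : ℝ) + 1) ≤ N := by exact_mod_cast hi
        have hi0 : (0 : ℝ) ≤ i := Nat.cast_nonneg i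
        have b1 : ((i : ℝ) + 1) * (L + 1) ≤ N * (L + 1) :=
          mul_le_mul_of_nonneg_right hi' (by linarith)
        have b2 : 0 ≤ (i : ℝ) * (L + 1) := by positivity
        refine hii _ ⟨?_, ?_⟩ _ ⟨?_, ?_⟩
        · linarith
        · rw [hn]; nlinarith
        · push_cast; nlinarith
        · rw [hn]; push_cast; linarith)
    rw [h1, hn]
    simp
  have htot : ∫ τ in (1 : ℝ)..n, (DD τ + ζ) ≤ 2 * CH + 2 := by
    have j1 : IntervalIntegrable DD volume 1 n := by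
      refine ContinuousOn.intervalIntegrable (hDc.mono fun τ hτ => hin τ ?_)
      rwa [uIcc_of_le hn1] at hτ
    rw [intervalIntegral.integral_add j1 intervalIntegrable_const,
      intervalIntegral.integral_const, smul_eq_mul]
    have h1 := hdr δ ⟨hδ0, hdc⟩
    have hb : ∀ t ∈ Icc 1 n, |Hs (f t)| ≤ CH := fun t ht => by
      have ht1 := hin t ht
      have ht2 : t ∈ Ico 0 T := ⟨ht1.1.le, ht1.2⟩
      exact hHs (f t) (hfc.cont_slice ht2) (fun x v => hfc.nonneg t ht2 x v)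
        (fun N x v => hdec t ht2 N x v)
    have h2 := (abs_le.1 (hb 1 ⟨le_rfl, hn1⟩)).2
    have h3 := (abs_le.1 (hb n ⟨hn1, le_rfl⟩)).1
    have e : ∀ t, Hs (f t) = ∫ q, f t q.2 q.1 * Real.log (f t q.2 q.1) ∂(nu d) := fun t => rfl
    rw [e] at h2 h3
    have h4 : ∫ τ in (1 : ℝ)..n, DD τ = ∫ τ in (1 : ℝ)..n, (∫ x, D δ (f τ x) ∂(muD d)) := by
      rw [hDD]
    rw [h4]
    have h5 : (n - 1) * ζ = 1 := by
      rw [hn, add_sub_cancel_left, mul_comm]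
      exact hζn
    rw [h5]
    linarith
  have h1 : ∑ _i ∈ Finset.range N, ε / 2 ≤ ∑ i ∈ Finset.range N, (K₁ + κ) *
      ∫ τ in (1 + i * (L + 1))..(1 + (i + 1 : ℕ) * (L + 1)), (DD τ + ζ) :=
    Finset.sum_le_sum fun i hi => hwin i (Finset.mem_range.1 hi)
  rw [Finset.sum_const, Finset.card_range, nsmul_eq_mul, ← Finset.mul_sum, hsum] at h1
  have h2 := mul_le_mul_of_nonneg_left htot (by positivity : 0 ≤ K₁ + κ)
  linarith

end Pool.Agent.H48.FH
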