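import Pool.Agent.H15.OB.Defs
import Pool.Agent.H15.AV.TrC

set_option autoImplicit false

open MeasureTheory Set Filter Topology Pool.Agent.H25.Kin Pool.Agent.H15.AV

namespace Pool.Agent.H48.FH

variable {d : ℕ}

theorem tsol_self {T : ℝ} {Q : (Vec d → ℝ) → Vec d → ℝ} {f : ℝ → Vec d → Vec d → ℝ}
    (hf : IsClassicalSol T (fun t x => Q (f t x)) f) : TSol T (fun t x => Q (f t x)) f := by
  refine ⟨fun t ht x v i => hf.periodic t ht x v i, fun q hq => IsClassicalSol.cont hf q hq,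
    fun q hq => (IsClassicalSol.smooth hf q hq).of_le (by norm_num), fun T₁ hT => ?_,
    fun T₀ hT₀ T₁ hT => ?_, fun t ht x v => hf.solves t ht x v⟩
  · obtain ⟨C, -, hC⟩ := IsClassicalSol.f_le hf hT (d + 1)
    exact ⟨C, hC⟩
  · obtain ⟨C, -, hC⟩ := IsClassicalSol.Q_le hf hT₀ hT (d + 1)
    exact ⟨C, hC⟩

end Pool.Agent.H48.FH
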